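import Pool.Agent.Run7.h161.AK.Arb

/-!
# Erasing relations of Artin groups and the Farrell–Jones conjecture

`C` is any class of groups with the closure properties `ClosedE C`, all of which are known for the
class of the groups that satisfy the Farrell–Jones conjecture for `A`-theory with coefficients and
finite wreath products.

Let `M` and `M'` be Coxeter matrices over the same set, of arbitrary cardinality, such that `M` is
obtained from `M'` by erasing relations, that is, by changing some labels to infinity (`0` in
Mathlib). If the Artin group of `M'` is in `C`, then the Artin group of `M` is in `C`. More generally
this holds for the Artin groups in which the generators satisfy `s ^ q = 1`, for every even `q`: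
`q = 0` are the Artin groups and `q = 2` the Coxeter groups, `q = 4, 6, …` are Shephard groups.

So the conjecture for all Artin groups reduces to the Artin groups of finite rank without the label
infinity. For example it holds for every Artin group obtained by erasing relations from a direct
product of Artin groups of spherical type and of the affine types `A` and `C` (the latter embed in
braid groups); such a group need not be of type FC.

Outline of the proof. First let the rank be finite and let one label `M s t` be changed. If `M s t` is
infinity then the group is the amalgamated product of the standard parabolic subgroups without `s`
and without `t` over the one without both. The natural homomorphism to the group of `M'` is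
injective on both factors (van der Lek), so that its kernel is free, and `S_AM` of the starting
library applies. Arbitrary rank follows with directed unions.
-/

set_option autoImplicit false

namespace Pool.Agent.Results.MP_2a547c_gt.ArtinRelations

open Pool.Agent.Y110.FJ (ClosedE)
open Run7.h161.AK

/-- Let `C` be a class of groups with the closure properties `ClosedE C`, let `q` be even, and let
the Coxeter matrix `M` be obtained from `M'` by changing some entries to infinity. If the Artin group
of `M'` (with the relations `s ^ q = 1`, which are empty for `q = 0`) is in `C` then so is that of
`M`. -/
theorem result (C : ∀ (G : Type) [Group G], Prop) (hC : ClosedE C) (q : ℕ) (hq : Even q) (B : Type)
    (M M' : CoxeterMatrix B) (h : ∀ s t : B, M s t = M' s t ∨ M s t = 0)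
    (hM' : C (Art M' q)) : C (Art M q) :=
  remove_arb hC hq M M' h hM'

end Pool.Agent.Results.MP_2a547c_gt.ArtinRelations
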