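import Pool.Agent.Run7.h909.NC.Grd2

/-!
# `GL_2` of noncommutative rings with a degree function and the A-theoretic Farrell-Jones conjecture

`C` is any class of groups with the closure properties `ClosedE C` which contains the solvable groups.
All this is known for the class of the groups whose wreath products with finite groups satisfy the
Farrell-Jones conjecture for `A`-theory with coefficients, the conjecture of the question
(Enkelmann-Lück-Pieper-Ullmann-Winges for the closure properties, Kasprowski-Ullmann-Wegner-Winges
for the solvable groups). So the groups below satisfy this conjecture. `(M2 R)ˣ` is `GL_2(R)`, the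
unit group of the ring of the two by two matrices over the ring `R`, which need not be commutative.

This theorem of helper909 was first handed in for the K- and L-theoretic conjecture
(`MP_b6f35e_al.NoncommutativeDegree`).

A degree function on a ring `R` (`IsDegN`) is a function `deg : R → ℤ ∪ {-∞}` with `deg x = -∞` only
for `x = 0`, `deg (x y) = deg x + deg y` and `deg (x + y) ≤ max (deg x) (deg y)`.

* (1) Let `A` be an `ℕ`-graded ring without zero divisors which satisfies the (left) Ore condition. If
  `GL_2(A_0)` is in `C`, then `GL_2(A)` is in `C`. (The converse is clear, `A_0` being a subring.)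
  There is no finiteness condition. Examples are skew polynomial rings over Ore domains, quantum affine
  spaces, the graded noetherian domains of noncommutative projective geometry, and the enveloping
  algebras of positively graded Lie algebras of finite dimension.
* (2) If `A` is an integral domain with `GL_2(A)` in `C` and `X` is a set, then `GL_2(A⟨X⟩)` is in `C`
  for the free associative `A`-algebra `A⟨X⟩`. In particular `GL_2(ℤ⟨X⟩)` is in `C`.
* (3) More generally, let `R` be a ring which embeds in the skew polynomial ring `K[x; φ]` of an
  endomorphism `φ` of a division ring `K`, and let `ε : R → S` be a homomorphism of rings such that the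
  elements of its kernel have constant coefficient zero. If `GL_2(S)` is in `C`, then `GL_2(R)` is in
  `C`.
* (4) Let `K` be a field with `GL_N(K)` in `C` for all `N`, and let `R` be
  a residually finite dimensional `K`-algebra without zero divisors which satisfies the Ore condition
  and has a nonnegative degree function such that the elements of bounded degree are contained in a
  finite dimensional space. Then `GL_2(R)` is in `C`. There is no condition on `C` for algebraic
  extensions `K` of finite fields; then examples are Weyl algebras, enveloping algebras, quantum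
  planes and other domains which are finite modules over their centres.
* (5) Let `R` be an Ore domain with a nonnegative degree function and `J` a two-sided ideal such that
  for every `n` some power of `J` has no nonzero elements of degree at most `n`. If `GL_2(R / J)` is in
  `C`, then `GL_2(R)` is in `C`.
* (6) Let `ρ` be a homomorphism from a group `G` to `GL_2(D)`, where `D` is a division ring with a degree
  function. Suppose that for every `n` there is a homomorphism from `G` to a group in `C` which does not
  kill any `g ≠ 1` for which the entries of `ρ g` and of `ρ g⁻¹` have degrees with sum at most `n`. Then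
  `G` is in `C`.

Outline of the proof. The degree function extends to the division ring `D` of fractions. For columns
`u`, `w` over `D` let `dl u w` be the degree of the Dieudonne determinant of the matrix `(u, w)`; up to a
normalization this is the ultrametric distance of the slopes `u₁ u₀⁻¹` and `w₁ w₀⁻¹`, so that it
satisfies the inequality of Ptolemy for ultrametric spaces,
`dl a b + dl c e ≤ max (dl a c + dl b e) (dl a e + dl b c)`, and `dl (g u) (g w) = χ(g) + dl u w` for an
integer `χ(g)`. Hence `2 max dl (g e_i) (k e_j) - χ(g) - χ(k)` is an invariant integral metric on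
`GL_2(D)` with the four point condition, and `GL_2(D)` acts on a tree such that the elements of a vertex
stabilizer have bounded degree. The rest follows from the theorem on trees with one homomorphism for
each vertex (`N24.TR.tree_local`); the homomorphisms are the reductions modulo the powers of an ideal,
or representations of finite dimension. The free algebra embeds in the skew polynomial ring over the
field of fractions of `A[u (x, i), i ∈ ℕ]` by `x ↦ u (x, 0) t`, where `t u (x, i) = u (x, i + 1) t`.
-/

set_option autoImplicit false

namespace Pool.Agent.Results.MP_2a547c_gt.NoncommutativeDegree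

open Pool.Agent.Y110.FJ (ClosedE)
open Run7.h909.NC

open scoped nonZeroDivisors

/-- (4) residually finite dimensional algebras over the field `K` -/
def ResFin (C : ∀ (G : Type) [Group G], Prop) (K : Type) [Field K] : Prop :=
  ∀ (R : Type) [Ring R] [Algebra K R] [Nontrivial R] [NoZeroDivisors R] [OreLocalization.OreSet R⁰]
    (deg : R → WithBot ℤ), IsDegN deg → (∀ x, x ≠ 0 → 0 ≤ deg x) →
    (∀ n : ℕ, ∃ V : Submodule K R, FiniteDimensional K V ∧ ∀ x, deg x ≤ n → x ∈ V) →
    (∀ x : R, x ≠ 0 → ∃ (B : Type) (_ : Ring B) (_ : Algebra K B) (φ : R →ₐ[K] B),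
      FiniteDimensional K B ∧ φ x ≠ 0) → C (M2 R)ˣ

theorem result (C : ∀ (G : Type) [Group G], Prop) (hC : ClosedE C)
    (hsol : ∀ (G : Type) [Group G], Group.IsSolvable G → C G) :
    -- (1)
    (∀ (A σ : Type) [Ring A] [Nontrivial A] [NoZeroDivisors A] [OreLocalization.OreSet A⁰]
      [SetLike σ A] [AddSubgroupClass σ A] (𝒜 : ℕ → σ) [GradedRing 𝒜],
      C (M2 (𝒜 0))ˣ → C (M2 A)ˣ) ∧
    -- (2)
    (∀ (A X : Type) [CommRing A] [IsDomain A], C (M2 A)ˣ → C (M2 (FreeAlgebra A X))ˣ) ∧
    (∀ X : Type, C (M2 (FreeAlgebra ℤ X))ˣ) ∧
    -- (3)
    (∀ (K R S : Type) [DivisionRing K] [MulSemiringAction (Multiplicative ℕ) K] [Ring R] [Ring S]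
      (ψ : R →+* SkewPolynomial K) (ε : R →+* S), Function.Injective ψ →
      (∀ x, ε x = 0 → (ψ x).coeff 0 = 0) → C (M2 S)ˣ → C (M2 R)ˣ) ∧
    -- (4)
    (∀ (K : Type) [Field K], (∀ N : ℕ, C (GL (Fin N) K)) → ResFin C K) ∧
    (∀ (K : Type) [Field K] (p : ℕ) [Fact p.Prime] [Algebra (ZMod p) K]
      [Algebra.IsAlgebraic (ZMod p) K], ResFin C K) ∧
    -- (5)
    (∀ (R : Type) [Ring R] [Nontrivial R] [NoZeroDivisors R] [OreLocalization.OreSet R⁰]
      (deg : R → WithBot ℤ), IsDegN deg → (∀ x, x ≠ 0 → 0 ≤ deg x) →
      ∀ (J : Ideal R) [J.IsTwoSided], C (M2 (R ⧸ J))ˣ →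
      (∀ n : ℕ, ∃ k : ℕ, ∀ x ∈ J ^ k, deg x ≤ n → x = 0) → C (M2 R)ˣ) ∧
    -- (6)
    (∀ (D G : Type) [DivisionRing D] [Group G] (deg : D → WithBot ℤ), IsDegN deg →
      ∀ ρ : G →* (M2 D)ˣ,
      (∀ n : ℕ, ∃ (P : Type) (_ : Group P) (f : G →* P), C P ∧ ∀ g : G,
        (∀ i j k l, deg ((ρ g).1 i j) + deg ((ρ g⁻¹).1 k l) ≤ n) → f g = 1 → g = 1) → C G) := by
  refine ⟨?_, ?_, ?_, ?_, ?_, ?_, ?_, ?_⟩
  · intro A σ _ _ _ _ _ _ 𝒜 _ h
    exact graded_mem 𝒜 hC hsol h
  · intro A X _ _ h
    exact free_mem A X hC hsol h
  · intro X
    exact free_mem ℤ X hC hsol (Run7.h909.GT.GL2Z_mem hC)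
  · intro K R S _ _ _ _ ψ ε hψ hε hS
    exact skew_emb_mem hC hsol ψ hψ ε hε hS
  · intro K _ hK R _ _ _ _ _ deg h h0 hfd hres
    exact resfd_mem hC hK h (ore_frac R) h0 hfd hres
  · intro K _ p _ _ _ R _ _ _ _ _ deg h h0 hfd hres
    exact resfd_mem hC (fun N => Run7.h909.UG.glK_mem hC (Fin N) K p) h (ore_frac R) h0 hfd hres
  · intro R _ _ _ _ deg h h0 J _ hJ hn
    exact ideal_mem hC hsol h (ore_frac R) h0 J hJ hn
  · intro D G _ _ deg h ρ hP
    exact nc_rep h hC ρ hP

end Pool.Agent.Results.MP_2a547c_gt.NoncommutativeDegree
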